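import Mathlib

set_option autoImplicit false

namespace Pool.Agent.H889R3.Tribes

open Finset

section basic
variable {ι : Type*} [Fintype ι] [DecidableEq ι]

/-- flip coordinate `i` -/
def flip (x : ι → Bool) (i : ι) : ι → Bool := Function.update x i (!x i)

/-- number of ones -/
def ones (f : (ι → Bool) → Bool) : ℕ := (univ.filter (fun x => f x = true)).card

/-- number of points sensitive in direction `i` -/
def sens (f : (ι → Bool) → Bool) (i : ι) : ℕ :=
  (univ.filter (fun x => f x ≠ f (flip x i))).card

/-- number of disagreements -/
def dis (f g : (ι → Bool) → Bool) : ℕ :=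
  (univ.filter (fun x => f x ≠ g x)).card

/-- `g` depends only on the coordinates in `J` -/
def Dep (g : (ι → Bool) → Bool) (J : Finset ι) : Prop :=
  ∀ x y : ι → Bool, (∀ j ∈ J, x j = y j) → g x = g y

end basic

/-- Tribes with `T` tribes of width `w`. -/
def tribes (T w : ℕ) (x : Fin T × Fin w → Bool) : Bool :=
  decide (∃ t, ∀ j, x (t, j) = true)

/-- the non satisfied assignments of a tribe -/
def unsat (w : ℕ) : Finset (Fin w → Bool) := univ.filter (fun v => ¬ ∀ j, v j = true)

theorem unsat_card (w : ℕ) : (unsat w).card = 2 ^ w - 1 := by
  have h : unsat w = univ.erase (fun _ => true) := by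
    ext v
    simp only [unsat, Finset.mem_filter, Finset.mem_univ, true_and, Finset.mem_erase, and_true]
    constructor
    · intro h h2; apply h; intro j; rw [h2]
    · intro h h2; apply h; funext j; exact h2 j
  rw [h, Finset.card_erase_of_mem (Finset.mem_univ _)]
  simp

/-- currying -/
def cur (T w : ℕ) : (Fin T × Fin w → Bool) ≃ (Fin T → Fin w → Bool) := Equiv.curry _ _ _

theorem card_filter_cur (T w : ℕ) (P : (Fin T → Fin w → Bool) → Prop) [DecidablePred P]
    (Q : (Fin T × Fin w → Bool) → Prop) [DecidablePred Q] (h : ∀ x, Q x ↔ P (cur T w x)) :
    (univ.filter Q).card = (univ.filter P).card := by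
  apply Finset.card_bij (fun x _ => cur T w x)
  · intro a ha
    simp only [Finset.mem_filter, Finset.mem_univ, true_and] at ha ⊢
    exact (h a).1 ha
  · intro a _ b _ hab
    exact (cur T w).injective hab
  · intro b hb
    refine ⟨(cur T w).symm b, ?_, by simp⟩
    simp only [Finset.mem_filter, Finset.mem_univ, true_and] at hb ⊢
    rw [h]; simpa using hb

theorem zeros_card (T w : ℕ) :
    (univ.filter (fun x : Fin T × Fin w → Bool => tribes T w x = false)).card =
      (2 ^ w - 1) ^ T := by
  rw [card_filter_cur T w (fun y => ∀ t, y t ∈ unsat w)]
  · have : (univ.filter (fun y : Fin T → Fin w → Bool => ∀ t, y t ∈ unsat w)) =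
        Fintype.piFinset (fun _ => unsat w) := by
      ext y; simp
    rw [this, Fintype.card_piFinset]
    simp [unsat_card]
  · intro x
    simp [tribes, unsat, cur, Equiv.curry, Function.curry]

theorem ones_tribes (T w : ℕ) :
    ones (tribes T w) + (2 ^ w - 1) ^ T = 2 ^ (T * w) := by
  rw [← zeros_card T w, ones]
  have := Finset.card_filter_add_card_filter_not (s := (univ : Finset (Fin T × Fin w → Bool)))
    (fun x => tribes T w x = true)
  simp only [Bool.not_eq_true] at this
  rw [this]
  simp

theorem sens_tribes (T w : ℕ) (i : Fin T × Fin w) :
    sens (tribes T w) i ≤ 2 * (2 ^ w - 1) ^ (T - 1) := by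
  obtain ⟨t0, j0⟩ := i
  set S0 : Finset (Fin w → Bool) := univ.filter (fun v => ∀ j, j ≠ j0 → v j = true) with hS0
  have hS0c : S0.card ≤ 2 := by
    have : S0 ⊆ {fun _ => true, fun j => decide (j ≠ j0)} := by
      intro v hv
      simp only [hS0, Finset.mem_filter, Finset.mem_univ, true_and] at hv
      simp only [Finset.mem_insert, Finset.mem_singleton]
      by_cases h : v j0 = true
      · left; funext j
        by_cases hj : j = j0
        · rw [hj, h]
        · exact hv j hj
      · right; funext j
        by_cases hj : j = j0
        · simp [hj] at h ⊢; exact h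
        · simp [hj, hv j hj]
    exact (Finset.card_le_card this).trans (Finset.card_le_two)
  have h1 : sens (tribes T w) (t0, j0) ≤
      (Fintype.piFinset (fun t : Fin T => if t = t0 then S0 else unsat w)).card := by
    rw [sens]
    rw [card_filter_cur T w (fun y => tribes T w ((cur T w).symm y) ≠
      tribes T w (flip ((cur T w).symm y) (t0, j0)))]
    · apply Finset.card_le_card
      intro y hy
      simp only [Finset.mem_filter, Finset.mem_univ, true_and] at hy
      rw [Fintype.mem_piFinset]
      intro t
      have e1 : ∀ a b, (cur T w).symm y (a, b) = y a b := by intro a b; rfl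
      split_ifs with ht
      · subst ht
        simp only [hS0, Finset.mem_filter, Finset.mem_univ, true_and]
        intro j hj
        by_contra hne
        apply hy
        -- tribe t is unsatisfied in both
        simp only [tribes]
        congr 1
        apply propext
        constructor
        · rintro ⟨a, ha⟩
          refine ⟨a, fun b => ?_⟩
          by_cases hab : a = t
          · exfalso; subst hab; exact hne (by rw [← e1]; exact ha j)
          · rw [flip, Function.update_of_ne]
            · exact ha b
            · intro h; exact hab (congrArg Prod.fst h)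
        · rintro ⟨a, ha⟩
          refine ⟨a, fun b => ?_⟩
          by_cases hab : a = t
          · exfalso; subst hab
            have := ha j
            rw [flip, Function.update_of_ne] at this
            · exact hne (by rw [← e1]; exact this)
            · intro h; exact hj (congrArg Prod.snd h)
          · have := ha b
            rw [flip, Function.update_of_ne] at this
            · exact this
            · intro h; exact hab (congrArg Prod.fst h)
      · -- t ≠ t0 unsatisfied
        simp only [unsat, Finset.mem_filter, Finset.mem_univ, true_and]
        intro hall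
        apply hy
        have a1 : tribes T w ((cur T w).symm y) = true := by
          simp only [tribes, decide_eq_true_eq]
          exact ⟨t, fun j => by rw [e1]; exact hall j⟩
        have a2 : tribes T w (flip ((cur T w).symm y) (t0, j0)) = true := by
          simp only [tribes, decide_eq_true_eq]
          refine ⟨t, fun j => ?_⟩
          rw [flip, Function.update_of_ne]
          · rw [e1]; exact hall j
          · intro h; exact ht (congrArg Prod.fst h)
        rw [a1, a2]
    · intro x
      simp
  refine h1.trans ?_
  rw [Fintype.card_piFinset]
  have h2 : ∀ t : Fin T, (if t = t0 then S0 else unsat w).card =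
      if t = t0 then S0.card else 2 ^ w - 1 := by
    intro t; split_ifs <;> simp [unsat_card]
  rw [Finset.prod_congr rfl (fun t _ => h2 t), Finset.prod_ite]
  simp only [Finset.prod_const]
  have h3 : (univ.filter (fun t : Fin T => t = t0)).card = 1 := by
    rw [Finset.filter_eq' univ t0]; simp
  have h4 : (univ.filter (fun t : Fin T => ¬ t = t0)).card = T - 1 := by
    rw [Finset.filter_not, Finset.card_sdiff_of_subset (Finset.filter_subset _ _), h3]
    simp
  rw [h3, h4, pow_one]
  exact Nat.mul_le_mul_right _ hS0c

end Pool.Agent.H889R3.Tribes
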