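import Pool.Agent.H889R3.Tribes1

set_option autoImplicit false

namespace Pool.Agent.H889R3.Tribes

open Finset

/-- approximating tribes by a function of few coordinates -/
theorem hard_tribes (T w : ℕ) (g : (Fin T × Fin w → Bool) → Bool) (J : Finset (Fin T × Fin w))
    (hg : Dep g J) :
    (2 ^ w - 1) ^ (J.image Prod.fst).card *
      min ((2 ^ w - 1) ^ (T - (J.image Prod.fst).card))
        ((2 ^ w) ^ (T - (J.image Prod.fst).card) - (2 ^ w - 1) ^ (T - (J.image Prod.fst).card))
      ≤ dis (tribes T w) g := by
  classical
  set A := J.image Prod.fst with hA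
  set e := Equiv.piEquivPiSubtypeProd (fun t : Fin T => t ∈ A) (fun _ => (Fin w → Bool)) with he
  set P : ({t // t ∈ A} → Fin w → Bool) × ({t // t ∉ A} → Fin w → Bool) → Prop := fun p =>
    tribes T w ((cur T w).symm (e.symm p)) ≠ g ((cur T w).symm (e.symm p)) with hP
  have h1 : dis (tribes T w) g = (univ.filter P).card := by
    rw [dis]
    apply Finset.card_bij (fun x _ => e (cur T w x))
    · intro a ha
      simp only [Finset.mem_filter, Finset.mem_univ, true_and] at ha ⊢
      simp only [hP, Equiv.symm_apply_apply]
      exact ha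
    · intro a _ b _ hab
      exact (cur T w).injective (e.injective hab)
    · intro b hb
      refine ⟨(cur T w).symm (e.symm b), ?_, by simp⟩
      simp only [Finset.mem_filter, Finset.mem_univ, true_and] at hb ⊢
      exact hb
  have h2 : (univ.filter P).card = ∑ a, (univ.filter (fun b => P (a, b))).card := by
    simp only [Finset.card_filter]
    rw [Fintype.sum_prod_type]
  set E : Finset ({t // t ∈ A} → Fin w → Bool) := Fintype.piFinset (fun _ => unsat w) with hE
  have hEc : E.card = (2 ^ w - 1) ^ A.card := by
    rw [hE, Fintype.card_piFinset]; simp [unsat_card]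
  set Z : Finset ({t // t ∉ A} → Fin w → Bool) := Fintype.piFinset (fun _ => unsat w) with hZ
  have hcardc : Fintype.card {t // t ∉ A} = T - A.card := by
    rw [Fintype.card_subtype_compl]; simp
  have hZc : Z.card = (2 ^ w - 1) ^ (T - A.card) := by
    rw [hZ, Fintype.card_piFinset]
    simp only [unsat_card, Finset.prod_const, Finset.card_univ, hcardc]
  have hZc' : (univ \ Z).card = (2 ^ w) ^ (T - A.card) - (2 ^ w - 1) ^ (T - A.card) := by
    rw [Finset.card_sdiff_of_subset (Finset.subset_univ _), hZc]
    congr 1
    rw [Finset.card_univ, Fintype.card_fun, hcardc]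
    simp
  -- evaluation
  have ev : ∀ a b t j, (cur T w).symm (e.symm (a, b)) (t, j) =
      if h : t ∈ A then a ⟨t, h⟩ j else b ⟨t, h⟩ j := by
    intro a b t j
    show e.symm (a, b) t j = _
    simp only [he, Equiv.piEquivPiSubtypeProd_symm_apply]
    split_ifs <;> rfl
  have h3 : ∀ a ∈ E, min ((2 ^ w - 1) ^ (T - A.card))
        ((2 ^ w) ^ (T - A.card) - (2 ^ w - 1) ^ (T - A.card)) ≤
      (univ.filter (fun b => P (a, b))).card := by
    intro a ha
    rw [hE, Fintype.mem_piFinset] at ha
    -- g constant
    have hgc : ∀ b b', g ((cur T w).symm (e.symm (a, b))) = g ((cur T w).symm (e.symm (a, b'))) := by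
      intro b b'
      apply hg
      rintro ⟨t, j⟩ htj
      have : t ∈ A := by rw [hA]; exact Finset.mem_image_of_mem Prod.fst htj
      rw [ev, ev, dif_pos this, dif_pos this]
    have htr : ∀ b, tribes T w ((cur T w).symm (e.symm (a, b))) = false ↔ b ∈ Z := by
      intro b
      rw [hZ, Fintype.mem_piFinset]
      simp only [tribes, decide_eq_false_iff_not, not_exists]
      constructor
      · intro h t
        simp only [unsat, Finset.mem_filter, Finset.mem_univ, true_and]
        intro h'
        apply h t.1
        intro j
        rw [ev, dif_neg t.2]; exact h' j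
      · intro h t h'
        by_cases ht : t ∈ A
        · have := ha ⟨t, ht⟩
          simp only [unsat, Finset.mem_filter, Finset.mem_univ, true_and] at this
          apply this
          intro j
          have := h' j
          rw [ev, dif_pos ht] at this; exact this
        · have := h ⟨t, ht⟩
          simp only [unsat, Finset.mem_filter, Finset.mem_univ, true_and] at this
          apply this
          intro j
          have := h' j
          rw [ev, dif_neg ht] at this; exact this
    cases hval : g ((cur T w).symm (e.symm (a, fun _ _ => false)))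
    · -- g = false: disagreements are outside Z
      refine (min_le_right _ _).trans ?_
      rw [← hZc']
      apply Finset.card_le_card
      intro b hb
      simp only [Finset.mem_sdiff, Finset.mem_univ, true_and] at hb
      simp only [Finset.mem_filter, Finset.mem_univ, true_and, hP]
      rw [hgc b (fun _ _ => false), hval]
      intro h; exact hb ((htr b).1 h)
    · refine (min_le_left _ _).trans ?_
      rw [← hZc]
      apply Finset.card_le_card
      intro b hb
      simp only [Finset.mem_filter, Finset.mem_univ, true_and, hP]
      rw [hgc b (fun _ _ => false), hval, (htr b).2 hb]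
      decide
  rw [h1, h2, ← hEc]
  calc E.card * min ((2 ^ w - 1) ^ (T - A.card))
        ((2 ^ w) ^ (T - A.card) - (2 ^ w - 1) ^ (T - A.card))
      = ∑ a ∈ E, min ((2 ^ w - 1) ^ (T - A.card))
        ((2 ^ w) ^ (T - A.card) - (2 ^ w - 1) ^ (T - A.card)) := by
        rw [Finset.sum_const, smul_eq_mul]
    _ ≤ ∑ a ∈ E, (univ.filter (fun b => P (a, b))).card := Finset.sum_le_sum h3
    _ ≤ ∑ a, (univ.filter (fun b => P (a, b))).card :=
        Finset.sum_le_sum_of_subset (Finset.subset_univ _)

/-! ### One more coordinate -/

section and1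
variable {κ : Type} [Fintype κ] [DecidableEq κ]

/-- `x_none ∧ f (x_some)` -/
def and1 (f : (κ → Bool) → Bool) (x : Option κ → Bool) : Bool := x none && f (fun k => x (some k))

/-- splitting off one coordinate -/
def spl : (Option κ → Bool) ≃ Bool × (κ → Bool) where
  toFun x := (x none, fun k => x (some k))
  invFun p := fun o => o.elim p.1 p.2
  left_inv x := by funext o; cases o <;> rfl
  right_inv p := rfl

@[simp] theorem spl_none (b : Bool) (y : κ → Bool) : spl.symm (b, y) none = b := rfl
@[simp] theorem spl_some (b : Bool) (y : κ → Bool) (k : κ) : spl.symm (b, y) (some k) = y k := rfl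

theorem card_spl (Q : (Option κ → Bool) → Prop) [DecidablePred Q] :
    (univ.filter Q).card =
      (univ.filter (fun y : κ → Bool => Q (spl.symm (true, y)))).card +
      (univ.filter (fun y : κ → Bool => Q (spl.symm (false, y)))).card := by
  have h : (univ.filter Q).card = (univ.filter (fun p : Bool × (κ → Bool) => Q (spl.symm p))).card := by
    apply Finset.card_bij (fun x _ => spl x)
    · intro a ha
      simp only [Finset.mem_filter, Finset.mem_univ, true_and] at ha ⊢
      simpa using ha
    · intro a _ b _ hab
      exact spl.injective hab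
    · intro b hb
      refine ⟨spl.symm b, ?_, by simp⟩
      simp only [Finset.mem_filter, Finset.mem_univ, true_and] at hb ⊢
      exact hb
  rw [h]
  simp only [Finset.card_filter]
  rw [Fintype.sum_prod_type]
  simp [add_comm]

theorem ones_and1 (f : (κ → Bool) → Bool) : ones (and1 f) = ones f := by
  rw [ones, card_spl]
  have h1 : (univ.filter (fun y : κ → Bool => and1 f (spl.symm (false, y)) = true)) = ∅ := by
    ext y; simp [and1]
  have h2 : (univ.filter (fun y : κ → Bool => and1 f (spl.symm (true, y)) = true)) =
      univ.filter (fun y => f y = true) := by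
    ext y; simp [and1]
  rw [h1, h2]; simp [ones]

theorem sens_and1_none (f : (κ → Bool) → Bool) : sens (and1 f) none = 2 * ones f := by
  rw [sens, card_spl]
  have h1 : (univ.filter (fun y : κ → Bool => and1 f (spl.symm (false, y)) ≠
      and1 f (flip (spl.symm (false, y)) none))) = univ.filter (fun y => f y = true) := by
    ext y; simp [and1, flip, Function.update]
  have h2 : (univ.filter (fun y : κ → Bool => and1 f (spl.symm (true, y)) ≠
      and1 f (flip (spl.symm (true, y)) none))) = univ.filter (fun y => f y = true) := by
    ext y; simp [and1, flip, Function.update]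
  rw [h1, h2, ones]; ring

theorem sens_and1_some (f : (κ → Bool) → Bool) (k : κ) : sens (and1 f) (some k) = sens f k := by
  rw [sens, card_spl]
  have h1 : (univ.filter (fun y : κ → Bool => and1 f (spl.symm (false, y)) ≠
      and1 f (flip (spl.symm (false, y)) (some k)))) = ∅ := by
    ext y; simp [and1, flip, Function.update]
  have h2 : (univ.filter (fun y : κ → Bool => and1 f (spl.symm (true, y)) ≠
      and1 f (flip (spl.symm (true, y)) (some k)))) =
      univ.filter (fun y => f y ≠ f (flip y k)) := by
    ext y
    simp only [Finset.mem_filter, Finset.mem_univ, true_and]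
    have e1 : and1 f (spl.symm (true, y)) = f y := by simp [and1]
    have e2 : and1 f (flip (spl.symm (true, y)) (some k)) = f (flip y k) := by
      have a1 : (flip (spl.symm (true, y)) (some k)) none = true := by
        simp [flip]
      have a2 : (fun k' => (flip (spl.symm (true, y)) (some k)) (some k')) = flip y k := by
        funext k'
        by_cases h : k' = k
        · subst h; simp [flip]
        · rw [flip, flip, Function.update_of_ne (by simpa using h), Function.update_of_ne h]; rfl
      rw [and1, a1, a2]; rfl
    rw [e1, e2]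
  rw [h1, h2]; simp [sens]

theorem sum_sens_and1 (f : (κ → Bool) → Bool) :
    ∑ i, sens (and1 f) i = 2 * ones f + ∑ k, sens f k := by
  rw [Fintype.sum_option, sens_and1_none]
  simp [sens_and1_some]

theorem hard_and1 (f : (κ → Bool) → Bool) (a : ℝ) (K : ℝ)
    (h : ∀ g J, Dep g J → (dis f g : ℝ) ≤ a → K ≤ (J.card : ℝ)) :
    ∀ g J, Dep g J → (dis (and1 f) g : ℝ) ≤ a → K ≤ (J.card : ℝ) := by
  intro g J hg hd
  set g' : (κ → Bool) → Bool := fun y => g (spl.symm (true, y)) with hg'
  set J' : Finset κ := univ.filter (fun k => some k ∈ J) with hJ'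
  have h1 : Dep g' J' := by
    intro x y hxy
    apply hg
    intro o ho
    cases o with
    | none => rfl
    | some k => exact hxy k (by simp [hJ', ho])
  have h2 : dis f g' ≤ dis (and1 f) g := by
    rw [dis, dis, card_spl]
    refine le_trans ?_ (Nat.le_add_right _ _)
    apply Finset.card_le_card
    intro y hy
    simp only [Finset.mem_filter, Finset.mem_univ, true_and] at hy ⊢
    have e1 : and1 f (spl.symm (true, y)) = f y := by simp [and1]
    rw [e1]; exact hy
  have h3 : J'.card ≤ J.card := by
    apply Finset.card_le_card_of_injOn (fun k => some k)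
    · intro k hk
      simp only [hJ', Finset.coe_filter, Finset.mem_univ, true_and, Set.mem_ofPred_eq] at hk
      exact hk
    · intro a _ b _ hab
      simpa using hab
  have h4 := h g' J' h1 (le_trans (by exact_mod_cast h2) hd)
  exact h4.trans (by exact_mod_cast h3)

end and1

/-- iterate -/
theorem iterate_and {κ : Type} [Fintype κ] [DecidableEq κ] (f : (κ → Bool) → Bool) (a K : ℝ)
    (h : ∀ g J, Dep g J → (dis f g : ℝ) ≤ a → K ≤ (J.card : ℝ)) (r : ℕ) :
    ∃ (κ' : Type) (_ : Fintype κ') (_ : DecidableEq κ') (F : (κ' → Bool) → Bool),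
      Fintype.card κ' = Fintype.card κ + r ∧ ones F = ones f ∧
      ∑ i, sens F i = 2 * r * ones f + ∑ k, sens f k ∧
      ∀ g J, Dep g J → (dis F g : ℝ) ≤ a → K ≤ (J.card : ℝ) := by
  induction r with
  | zero => exact ⟨κ, inferInstance, inferInstance, f, by simp, rfl, by simp, h⟩
  | succ r ih =>
    obtain ⟨κ', i1, i2, F, h1, h2, h3, h4⟩ := ih
    refine ⟨Option κ', inferInstance, inferInstance, and1 F, ?_, ?_, ?_, hard_and1 F a K h4⟩
    · rw [Fintype.card_option, h1]; ring
    · rw [ones_and1, h2]
    · rw [sum_sens_and1, h3, h2]; ring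

/-! ### Transport to `Fin n` -/

theorem transport {κ : Type} [Fintype κ] [DecidableEq κ] (f : (κ → Bool) → Bool) (a K : ℝ)
    (h : ∀ g J, Dep g J → (dis f g : ℝ) ≤ a → K ≤ (J.card : ℝ)) (n : ℕ)
    (hn : Fintype.card κ = n) :
    ∃ F : (Fin n → Bool) → Bool, ones F = ones f ∧ ∑ i, sens F i = ∑ k, sens f k ∧
      ∀ g J, Dep g J → (dis F g : ℝ) ≤ a → K ≤ (J.card : ℝ) := by
  set e : κ ≃ Fin n := Fintype.equivFinOfCardEq hn with he
  set E : (κ → Bool) ≃ (Fin n → Bool) := Equiv.arrowCongr e (Equiv.refl Bool) with hE
  have hEa : ∀ x i, E x i = x (e.symm i) := by intro x i; rfl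
  have hEs : ∀ y k, E.symm y k = y (e k) := by intro x i; rfl
  have cnt : ∀ (P : (κ → Bool) → Prop) (Q : (Fin n → Bool) → Prop) [DecidablePred P]
      [DecidablePred Q], (∀ y, Q y ↔ P (E.symm y)) → (univ.filter Q).card = (univ.filter P).card := by
    intro P Q _ _ hPQ
    apply Finset.card_bij (fun y _ => E.symm y)
    · intro y hy
      simp only [Finset.mem_filter, Finset.mem_univ, true_and] at hy ⊢
      exact (hPQ y).1 hy
    · intro a _ b _ hab
      exact E.symm.injective hab
    · intro b hb
      refine ⟨E b, ?_, by simp⟩
      simp only [Finset.mem_filter, Finset.mem_univ, true_and] at hb ⊢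
      rw [hPQ]; simpa using hb
  have hflip : ∀ y k, E.symm (flip y (e k)) = flip (E.symm y) k := by
    intro y k
    funext k'
    rw [hEs]
    by_cases hk : k' = k
    · subst hk; simp [flip, hEs]
    · rw [flip, flip, Function.update_of_ne hk, Function.update_of_ne (by simpa using hk), hEs]
  refine ⟨fun y => f (E.symm y), ?_, ?_, ?_⟩
  · exact cnt (fun x => f x = true) _ (fun y => Iff.rfl)
  · rw [← Equiv.sum_comp e]
    apply Finset.sum_congr rfl
    intro k _
    apply cnt
    intro y
    show f (E.symm y) ≠ f (E.symm (flip y (e k))) ↔ _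
    rw [hflip]
  · intro g J hg hd
    have h1 : Dep (fun x => g (E x)) (J.map e.symm.toEmbedding) := by
      intro x y hxy
      apply hg
      intro j hj
      rw [hEa, hEa]
      exact hxy _ (by simp [hj])
    have h2 : dis f (fun x => g (E x)) = dis (fun y => f (E.symm y)) g := by
      symm
      apply cnt
      intro y
      simp
    have h3 := h (fun x => g (E x)) _ h1 (by rw [h2]; exact hd)
    simpa using h3

end Pool.Agent.H889R3.Tribes
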