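import Pool.Agent.H889R3.Tribes2

set_option autoImplicit false

namespace Pool.Agent.H889R3.Tribes

open Finset Filter Topology

/-- hardness in real form -/
theorem hard_real (T w : ℕ) (hw : 1 ≤ w) (ε : ℝ) (hε : 0 < ε) (hε1 : ε < 1)
    (hx : (1 : ℝ) / 2 ≤ (1 - 1 / 2 ^ w) ^ T) (hT : 1 ≤ T) :
    ∀ g J, Dep g J → (dis (tribes T w) g : ℝ) ≤ ε * ones (tribes T w) →
      (1 - ε) * (1 - (1 - 1 / 2 ^ w : ℝ) ^ T) * 2 ^ w ≤ (J.card : ℝ) := by
  intro g J hg hd
  set m := (J.image Prod.fst).card with hm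
  have hmJ : m ≤ J.card := Finset.card_image_le
  have hmT : m ≤ T := by
    have := Finset.card_le_univ (J.image Prod.fst)
    simpa using this
  have h0 := hard_tribes T w g J hg
  rw [← hm] at h0
  set Y : ℝ := 2 ^ w with hY
  have hY2 : 2 ≤ Y := by
    rw [hY]; calc (2 : ℝ) = 2 ^ 1 := by norm_num
      _ ≤ 2 ^ w := pow_le_pow_right₀ (by norm_num) hw
  have hYpos : 0 < Y := by linarith
  set x : ℝ := 1 - 1 / Y with hxdef
  have hx0 : 0 < x := by
    rw [hxdef, sub_pos, div_lt_one hYpos]; linarith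
  have hx1 : x < 1 := by rw [hxdef]; have : 0 < 1 / Y := by positivity
                         linarith
  have hXY : Y - 1 = x * Y := by rw [hxdef]; field_simp
  have hcastX : (((2 ^ w - 1 : ℕ)) : ℝ) = x * Y := by
    rw [← hXY, Nat.cast_sub Nat.one_le_two_pow]; push_cast; rfl
  have hcastY : (((2 ^ w : ℕ)) : ℝ) = Y := by push_cast; rfl
  -- real version
  have h1 : min ((x * Y) ^ T) ((x * Y) ^ m * Y ^ (T - m) - (x * Y) ^ T) ≤ (dis (tribes T w) g : ℝ) := by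
    have h2 : ((((2 ^ w - 1) ^ m * min ((2 ^ w - 1) ^ (T - m))
        ((2 ^ w) ^ (T - m) - (2 ^ w - 1) ^ (T - m)) : ℕ)) : ℝ) ≤ (dis (tribes T w) g : ℝ) := by
      exact_mod_cast h0
    refine le_trans (le_of_eq ?_) h2
    have hle : (2 ^ w - 1) ^ (T - m) ≤ (2 ^ w) ^ (T - m) :=
      Nat.pow_le_pow_left (Nat.sub_le _ _) _
    push_cast [Nat.cast_sub hle]
    have e1 : ((2 ^ w - 1 : ℕ) : ℝ) = x * Y := hcastX
    rw [e1]
    rw [mul_min_of_nonneg _ _ (by positivity), mul_sub, ← pow_add, Nat.add_sub_cancel' hmT]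
  have hones : (ones (tribes T w) : ℝ) = Y ^ T - (x * Y) ^ T := by
    have := ones_tribes T w
    have h3 : (ones (tribes T w) : ℝ) + ((2 ^ w - 1 : ℕ) : ℝ) ^ T = 2 ^ (T * w) := by
      exact_mod_cast this
    rw [hcastX] at h3
    have : (2 : ℝ) ^ (T * w) = Y ^ T := by rw [hY, ← pow_mul, mul_comm]
    linarith
  have hYT : 0 < Y ^ T := by positivity
  have hp : 0 < 1 - x ^ T := by
    have : x ^ T < 1 := pow_lt_one₀ hx0.le hx1 (by omega)
    linarith
  have h4 : min (x ^ T) (x ^ m - x ^ T) ≤ ε * (1 - x ^ T) := by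
    have e1 : (x * Y) ^ T = x ^ T * Y ^ T := mul_pow _ _ _
    have e2 : (x * Y) ^ m * Y ^ (T - m) = x ^ m * Y ^ T := by
      rw [mul_pow, mul_assoc, ← pow_add, Nat.add_sub_cancel' hmT]
    rw [e1, e2] at h1
    rw [hones, e1] at hd
    have h5 : min (x ^ T) (x ^ m - x ^ T) * Y ^ T ≤ (ε * (1 - x ^ T)) * Y ^ T := by
      calc min (x ^ T) (x ^ m - x ^ T) * Y ^ T
          = min (x ^ T * Y ^ T) (x ^ m * Y ^ T - x ^ T * Y ^ T) := by
            rw [min_mul_of_nonneg _ _ hYT.le, sub_mul]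
        _ ≤ _ := h1
        _ ≤ _ := hd
        _ = _ := by ring
    exact le_of_mul_le_mul_right h5 hYT
  have h6 : x ^ m - x ^ T ≤ ε * (1 - x ^ T) := by
    rcases min_le_iff.1 h4 with h | h
    · exfalso
      have : ε * (1 - x ^ T) < 1 / 2 := by nlinarith
      linarith
    · exact h
  have h7 : 1 - m / Y ≤ x ^ m := by
    have := one_add_mul_le_pow (a := -(1 / Y)) (by
      have : 1 / Y ≤ 1 := by rw [div_le_one hYpos]; linarith
      linarith) m
    calc 1 - m / Y = 1 + m * (-(1 / Y)) := by ring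
      _ ≤ (1 + -(1 / Y)) ^ m := this
      _ = x ^ m := by rw [hxdef]; ring_nf
  have h8 : (1 - ε) * (1 - x ^ T) ≤ m / Y := by nlinarith
  have h9 : (1 - ε) * (1 - x ^ T) * Y ≤ m := by
    rw [le_div_iff₀ hYpos] at h8; exact h8
  calc (1 - ε) * (1 - (1 - 1 / 2 ^ w : ℝ) ^ T) * 2 ^ w = (1 - ε) * (1 - x ^ T) * Y := by rfl
    _ ≤ m := h9
    _ ≤ J.card := by exact_mod_cast hmJ

/-- choice of the real parameters -/
theorem params (c : ℝ) (hc : 0 < c) (hc1 : c * Real.log 2 < 1) :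
    ∃ ε κ lam : ℝ, 0 < ε ∧ ε < 1 ∧ 0 < κ ∧ c * κ < ε ∧ 0 < lam ∧ lam < Real.log 2 ∧
      lam * Real.exp (-lam) - κ * (1 - Real.exp (-lam)) < 0 := by
  set L := Real.log 2 with hL
  have hLpos : 0 < L := Real.log_pos (by norm_num)
  set ε := (1 + c * L) / 2 with hε
  set κ := (L + ε / c) / 2 with hκ
  have h1 : L < ε / c := by
    rw [lt_div_iff₀ hc, hε]; nlinarith
  have h2 : L < κ := by rw [hκ]; linarith
  have h3 : κ < ε / c := by rw [hκ]; linarith
  have hexpL : Real.exp (-L) = 1 / 2 := by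
    rw [Real.exp_neg, hL, Real.exp_log (by norm_num)]; norm_num
  have hcont : Continuous (fun t : ℝ => t * Real.exp (-t) - κ * (1 - Real.exp (-t))) := by
    fun_prop
  have hval : (fun t : ℝ => t * Real.exp (-t) - κ * (1 - Real.exp (-t))) L < 0 := by
    simp only [hexpL]; linarith
  have hev : ∀ᶠ t in 𝓝 L, (fun t : ℝ => t * Real.exp (-t) - κ * (1 - Real.exp (-t))) t < 0 :=
    hcont.continuousAt.eventually_lt_const hval
  have hev2 : ∀ᶠ t in 𝓝[<] L, (fun t : ℝ => t * Real.exp (-t) - κ * (1 - Real.exp (-t))) t < 0 :=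
    hev.filter_mono nhdsWithin_le_nhds
  have hev3 : ∀ᶠ t in 𝓝[<] L, t ∈ Set.Ioo 0 L := Ioo_mem_nhdsLT hLpos
  obtain ⟨lam, hl1, hl2⟩ := (hev2.and hev3).exists
  refine ⟨ε, κ, lam, ?_, ?_, by linarith, ?_, hl2.1, hl2.2, hl1⟩
  · rw [hε]; positivity
  · rw [hε]; linarith
  · rw [lt_div_iff₀ hc] at h3; linarith

end Pool.Agent.H889R3.Tribes
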