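import Pool.Agent.H889R3.Tribes3

set_option autoImplicit false

namespace Pool.Agent.H889R3.Tribes

open Finset Filter Topology

theorem choose_w (c C ε κ lam : ℝ) (r : ℕ) (hc : 0 < c) (hC : 0 < C) (hε : 0 < ε) (hε1 : ε < 1)
    (hκ : 0 < κ) (hcκ : c * κ < ε) (hl : 0 < lam) (hlL : lam < Real.log 2)
    (hΨ : lam * Real.exp (-lam) - κ * (1 - Real.exp (-lam)) < 0) :
    ∃ w : ℕ, 1 ≤ w ∧ 1 ≤ lam * 2 ^ w ∧ lam ≤ Real.log 2 * (1 - 1 / 2 ^ w) ∧
      lam * Real.exp (-(lam - 1 / 2 ^ w)) -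
        κ * (1 - Real.exp (-(lam - 1 / 2 ^ w))) * (1 - 1 / 2 ^ w) < 0 ∧
      (1 - Real.exp (-lam)) / 2 ≤ 1 - Real.exp (-(lam - 1 / 2 ^ w)) ∧
      C * (r + Real.logb 2 (2 / (1 - Real.exp (-lam)))) * (2 : ℝ) ^ (c * (κ * w / ε)) <
        (1 - ε) * ((1 - Real.exp (-lam)) / 2) * 2 ^ w := by
  set q := 1 - Real.exp (-lam) with hq
  have hq0 : 0 < q := by
    rw [hq, sub_pos, Real.exp_lt_one_iff]; linarith
  have ht : Tendsto (fun w : ℕ => (1 : ℝ) / 2 ^ w) atTop (𝓝 0) := by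
    have := tendsto_pow_atTop_nhds_zero_of_lt_one (r := (1 / 2 : ℝ)) (by norm_num) (by norm_num)
    refine this.congr (fun w => ?_)
    rw [one_div_pow]
  have h2 : Tendsto (fun w : ℕ => (2 : ℝ) ^ w) atTop atTop :=
    tendsto_pow_atTop_atTop_of_one_lt (by norm_num)
  have e1 : ∀ᶠ w : ℕ in atTop, 1 ≤ w := eventually_ge_atTop 1
  have e2 : ∀ᶠ w : ℕ in atTop, 1 ≤ lam * 2 ^ w :=
    (h2.const_mul_atTop hl).eventually_ge_atTop 1
  have e3 : ∀ᶠ w : ℕ in atTop, lam ≤ Real.log 2 * (1 - 1 / 2 ^ w) := by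
    have hc1 : Continuous (fun t : ℝ => Real.log 2 * (1 - t)) := by fun_prop
    have := (hc1.tendsto 0).comp ht
    have h3 := this.eventually_const_lt (u := lam) (by simpa using hlL)
    exact h3.mono (fun w hw => le_of_lt hw)
  have e4 : ∀ᶠ w : ℕ in atTop, lam * Real.exp (-(lam - 1 / 2 ^ w)) -
        κ * (1 - Real.exp (-(lam - 1 / 2 ^ w))) * (1 - 1 / 2 ^ w) < 0 := by
    have hc1 : Continuous (fun t : ℝ => lam * Real.exp (-(lam - t)) -
        κ * (1 - Real.exp (-(lam - t))) * (1 - t)) := by fun_prop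
    have := (hc1.tendsto 0).comp ht
    exact this.eventually_lt_const (by simpa using hΨ)
  have e5 : ∀ᶠ w : ℕ in atTop, q / 2 ≤ 1 - Real.exp (-(lam - 1 / 2 ^ w)) := by
    have hc1 : Continuous (fun t : ℝ => 1 - Real.exp (-(lam - t))) := by fun_prop
    have := (hc1.tendsto 0).comp ht
    have h3 := this.eventually_const_lt (u := q / 2) (by
      simp only [sub_zero]; rw [← hq]; linarith)
    exact h3.mono (fun w hw => le_of_lt hw)
  set a : ℝ := c * κ / ε with ha
  have ha1 : a < 1 := by rw [ha, div_lt_one hε]; exact hcκ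
  set K' : ℝ := (1 - ε) * (q / 2) with hK'
  have hK'pos : 0 < K' := by rw [hK']; have : 0 < 1 - ε := by linarith
                             positivity
  have e6 : ∀ᶠ w : ℕ in atTop,
      C * (r + Real.logb 2 (2 / q)) * (2 : ℝ) ^ (c * (κ * w / ε)) < K' * 2 ^ w := by
    have hb : (1 : ℝ) < 2 ^ (1 - a) := Real.one_lt_rpow (by norm_num) (by linarith)
    have h3 := (tendsto_pow_atTop_atTop_of_one_lt hb).eventually_gt_atTop
      (C * (r + Real.logb 2 (2 / q)) / K')
    refine h3.mono (fun w hw => ?_)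
    rw [div_lt_iff₀ hK'pos] at hw
    have h4 : ((2 : ℝ) ^ (1 - a)) ^ w * 2 ^ (c * (κ * w / ε)) = 2 ^ w := by
      rw [← Real.rpow_natCast, ← Real.rpow_mul (by norm_num), ← Real.rpow_add (by norm_num),
        ← Real.rpow_natCast 2 w]
      congr 1
      rw [ha]; field_simp; ring
    have h5 : (0 : ℝ) < 2 ^ (c * (κ * w / ε)) := by positivity
    calc C * (r + Real.logb 2 (2 / q)) * (2 : ℝ) ^ (c * (κ * w / ε))
        < ((2 : ℝ) ^ (1 - a)) ^ w * K' * 2 ^ (c * (κ * w / ε)) :=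
          mul_lt_mul_of_pos_right hw h5
      _ = K' * (((2 : ℝ) ^ (1 - a)) ^ w * 2 ^ (c * (κ * w / ε))) := by ring
      _ = K' * 2 ^ w := by rw [h4]
  obtain ⟨w, h⟩ := (e1.and (e2.and (e3.and (e4.and (e5.and e6))))).exists
  exact ⟨w, h.1, h.2.1, h.2.2.1, h.2.2.2.1, h.2.2.2.2.1, h.2.2.2.2.2⟩

/-- main construction -/
theorem main (c C η : ℝ) (hc : 0 < c) (hc1 : c * Real.log 2 < 1) (hC : 0 < C) (hη : 0 < η) :
    ∃ M ε : ℝ, 0 < M ∧ 0 < ε ∧ ε < 1 ∧ ∃ n, 1 ≤ n ∧ ∃ F : (Fin n → Bool) → Bool,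
      0 < (ones F : ℝ) / 2 ^ n ∧ (ones F : ℝ) / 2 ^ n < η ∧
      (∑ i, (sens F i : ℝ) / 2 ^ n) ≤
        2 * ((ones F : ℝ) / 2 ^ n) * (Real.logb 2 (1 / ((ones F : ℝ) / 2 ^ n)) + M) ∧
      ∀ g J, Dep g J → (dis F g : ℝ) / 2 ^ n ≤ ε * ((ones F : ℝ) / 2 ^ n) →
        C * Real.logb 2 (1 / ((ones F : ℝ) / 2 ^ n)) * 2 ^ (c * (M / ε)) < (J.card : ℝ) := by
  obtain ⟨ε, κ, lam, hε, hε1, hκ, hcκ, hl, hlL, hΨ⟩ := params c hc hc1
  obtain ⟨r, hr⟩ := exists_pow_lt_of_lt_one hη (show (1 / 2 : ℝ) < 1 by norm_num)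
  obtain ⟨w, hw1, hw2, hw3, hw4, hw5, hw6⟩ :=
    choose_w c C ε κ lam r hc hC hε hε1 hκ hcκ hl hlL hΨ
  set q := 1 - Real.exp (-lam) with hq
  have hq0 : 0 < q := by
    rw [hq, sub_pos, Real.exp_lt_one_iff]; linarith
  set Y : ℝ := 2 ^ w with hY
  have hY2 : 2 ≤ Y := by
    rw [hY]; calc (2 : ℝ) = 2 ^ 1 := by norm_num
      _ ≤ 2 ^ w := pow_le_pow_right₀ (by norm_num) hw1
  have hYpos : 0 < Y := by linarith
  set t : ℝ := 1 / Y with ht
  have ht0 : 0 < t := by rw [ht]; positivity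
  have ht12 : t ≤ 1 / 2 := by
    rw [ht]; exact one_div_le_one_div_of_le (by norm_num) hY2
  set x : ℝ := 1 - t with hxdef
  have hx0 : 0 < x := by rw [hxdef]; linarith
  have hx1 : x < 1 := by rw [hxdef]; linarith
  set T : ℕ := ⌊lam * Y⌋₊ with hT
  have hT1 : 1 ≤ T := by rw [hT]; exact Nat.le_floor (by simpa using hw2)
  have hTle : (T : ℝ) ≤ lam * Y := Nat.floor_le (by positivity)
  have hTgt : lam * Y - 1 < T := by
    have := Nat.lt_floor_add_one (lam * Y)
    rw [← hT] at this; linarith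
  have hTt : (T : ℝ) * t ≤ lam := by
    rw [ht, mul_one_div, div_le_iff₀ hYpos]; exact hTle
  have hTt' : lam - t ≤ (T : ℝ) * t := by
    have : (lam * Y - 1) * t ≤ T * t := mul_le_mul_of_nonneg_right hTgt.le ht0.le
    have e : (lam * Y - 1) * t = lam - t := by rw [ht]; field_simp
    linarith
  set u : ℝ := x ^ T with hu
  have hu0 : 0 < u := by positivity
  have hule : u ≤ Real.exp (-(lam - t)) := by
    calc u = (1 - t) ^ T := rfl
      _ ≤ (Real.exp (-t)) ^ T := pow_le_pow_left₀ hx0.le (Real.one_sub_le_exp_neg t) T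
      _ = Real.exp (-(T * t)) := by rw [← Real.exp_nat_mul]; congr 1; ring
      _ ≤ _ := Real.exp_le_exp.2 (by linarith)
  have hu12 : 1 / 2 ≤ u := by
    have h1 : 1 - x⁻¹ ≤ Real.log x := Real.one_sub_inv_le_log_of_pos hx0
    have h2 : u = Real.exp (T * Real.log x) := by
      rw [hu, ← Real.rpow_natCast, Real.rpow_def_of_pos hx0]; congr 1; ring
    have h3 : Real.exp (-Real.log 2) = 1 / 2 := by
      rw [Real.exp_neg, Real.exp_log (by norm_num)]; norm_num
    rw [h2, ← h3]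
    apply Real.exp_le_exp.2
    have h4 : T * (1 - x⁻¹) ≤ T * Real.log x := mul_le_mul_of_nonneg_left h1 (by positivity)
    have h5 : T * (1 - x⁻¹) = - (T * t / x) := by
      rw [hxdef]; rw [hxdef] at hx0; field_simp; ring
    have h6 : T * t / x ≤ Real.log 2 := by
      rw [div_le_iff₀ hx0]
      calc T * t ≤ lam := hTt
        _ ≤ _ := hw3
    linarith
  set p : ℝ := 1 - u with hp
  have hp12 : p ≤ 1 / 2 := by rw [hp]; linarith
  have hpq : q / 2 ≤ p := by rw [hp]; linarith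
  have hp0 : 0 < p := by linarith [half_pos hq0]
  set M : ℝ := κ * w with hM
  have hMpos : 0 < M := by rw [hM]; have : (0 : ℝ) < w := by exact_mod_cast hw1
                           positivity
  -- ones of tribes
  set o : ℕ := ones (tribes T w) with ho
  have hcastX : (((2 ^ w - 1 : ℕ)) : ℝ) = x * Y := by
    have hXY : Y - 1 = x * Y := by rw [hxdef, ht]; field_simp
    rw [← hXY, Nat.cast_sub Nat.one_le_two_pow]; push_cast; rfl
  have hY2T : (2 : ℝ) ^ (T * w) = Y ^ T := by rw [hY, ← pow_mul, mul_comm]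
  have hoR : (o : ℝ) = p * Y ^ T := by
    have := ones_tribes T w
    have h3 : (o : ℝ) + ((2 ^ w - 1 : ℕ) : ℝ) ^ T = 2 ^ (T * w) := by
      rw [ho]; exact_mod_cast this
    rw [hcastX, hY2T, mul_pow] at h3
    rw [hp, hu]; linarith
  have hard0 := hard_real T w hw1 ε hε hε1 (by
    show (1 : ℝ) / 2 ≤ (1 - 1 / Y) ^ T
    exact hu12) hT1
  have hard1 : ∀ g J, Dep g J → (dis (tribes T w) g : ℝ) ≤ ε * o →
      (1 - ε) * p * Y ≤ (J.card : ℝ) := hard0
  obtain ⟨κ', i1, i2, F0, f1, f2, f3, f4⟩ := iterate_and (tribes T w) _ _ hard1 r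
  obtain ⟨n, hn⟩ : ∃ n, n = T * w + r := ⟨_, rfl⟩
  have hcard : Fintype.card κ' = n := by rw [f1, hn]; simp
  obtain ⟨F, g1, g2, g3⟩ := transport F0 _ _ f4 n hcard
  have hn1 : 1 ≤ n := by
    have : 1 ≤ T * w := Nat.one_le_iff_ne_zero.2 (by
      have : 0 < T * w := Nat.mul_pos hT1 hw1
      omega)
    omega
  have h2n : (2 : ℝ) ^ n = Y ^ T * 2 ^ r := by rw [hn, pow_add, hY2T]
  have hYT : 0 < Y ^ T := by positivity
  have hones : ones F = o := by rw [g1, f2]
  have hμ : (ones F : ℝ) / 2 ^ n = p / 2 ^ r := by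
    rw [hones, hoR, h2n]; field_simp
  have hμpos : 0 < p / 2 ^ r := by positivity
  have hlog : Real.logb 2 (1 / (p / 2 ^ r)) = r + Real.logb 2 (1 / p) := by
    have : 1 / (p / 2 ^ r) = 2 ^ r * (1 / p) := by field_simp
    rw [this, Real.logb_mul (by positivity) (by positivity), Real.logb_pow,
      Real.logb_self_eq_one (by norm_num)]
    ring
  have hlogp : 0 ≤ Real.logb 2 (1 / p) := by
    apply Real.logb_nonneg (by norm_num)
    rw [le_div_iff₀ hp0]; linarith
  have hlogp2 : Real.logb 2 (1 / p) ≤ Real.logb 2 (2 / q) := by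
    apply Real.logb_le_logb_of_le (by norm_num) (by positivity)
    rw [div_le_div_iff₀ hp0 hq0]; linarith
  refine ⟨M, ε, hMpos, hε, hε1, n, hn1, F, ?_, ?_, ?_, ?_⟩
  · rw [hμ]; exact hμpos
  · rw [hμ]
    calc p / 2 ^ r ≤ 1 / 2 ^ r := by
          apply div_le_div_of_nonneg_right _ (by positivity); linarith
      _ = (1 / 2) ^ r := by rw [one_div_pow]
      _ < η := hr
  · rw [hμ, hlog]
    have hsum : (∑ i, (sens F i : ℝ) / 2 ^ n) =
        (2 * r * o + ∑ k, (sens (tribes T w) k : ℝ)) / 2 ^ n := by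
      rw [← Finset.sum_div]
      congr 1
      have : ((∑ i, sens F i : ℕ) : ℝ) = ((2 * r * o + ∑ k, sens (tribes T w) k : ℕ) : ℝ) := by
        rw [g2, f3]
      push_cast at this
      exact this
    rw [hsum]
    have hs : (∑ k, (sens (tribes T w) k : ℝ)) ≤ (T * w) * (2 * (x * Y) ^ (T - 1)) := by
      calc (∑ k, (sens (tribes T w) k : ℝ)) ≤
          ∑ k : Fin T × Fin w, (2 * (x * Y) ^ (T - 1)) := by
            apply Finset.sum_le_sum
            intro k _
            have := sens_tribes T w k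
            have h3 : (sens (tribes T w) k : ℝ) ≤ 2 * ((2 ^ w - 1 : ℕ) : ℝ) ^ (T - 1) := by
              exact_mod_cast this
            rw [hcastX] at h3; exact h3
        _ = _ := by simp
    have hkey : lam * x ^ (T - 1) ≤ κ * p := by
      have h1 : lam * u ≤ κ * p * x := by
        have h2 : lam * u ≤ lam * Real.exp (-(lam - t)) := mul_le_mul_of_nonneg_left hule hl.le
        have h3 : κ * (1 - Real.exp (-(lam - t))) * (1 - t) ≤ κ * p * x := by
          apply mul_le_mul_of_nonneg_right _ hx0.le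
          apply mul_le_mul_of_nonneg_left _ hκ.le
          rw [hp]; linarith
        linarith
      have h2 : u = x ^ (T - 1) * x := by
        rw [hu, ← pow_succ]; congr 1; omega
      rw [h2, ← mul_assoc] at h1
      exact le_of_mul_le_mul_right h1 hx0
    have hYT1 : Y ^ T = Y ^ (T - 1) * Y := by rw [← pow_succ]; congr 1; omega
    have hIT : (T * w) * (2 * (x * Y) ^ (T - 1)) / Y ^ T ≤ 2 * p * M := by
      have e : (T * w) * (2 * (x * Y) ^ (T - 1)) / Y ^ T = 2 * w * ((T * t) * x ^ (T - 1)) := by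
        rw [hYT1, mul_pow, ht]; field_simp
      rw [e, hM]
      have h1 : (T * t) * x ^ (T - 1) ≤ κ * p :=
        (mul_le_mul_of_nonneg_right hTt (by positivity)).trans hkey
      have h2 := mul_le_mul_of_nonneg_left h1 (show (0 : ℝ) ≤ 2 * w by positivity)
      calc 2 * w * ((T * t) * x ^ (T - 1)) ≤ 2 * w * (κ * p) := h2
        _ = _ := by ring
    calc (2 * r * o + ∑ k, (sens (tribes T w) k : ℝ)) / 2 ^ n
        ≤ (2 * r * o + (T * w) * (2 * (x * Y) ^ (T - 1))) / 2 ^ n := by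
          apply div_le_div_of_nonneg_right _ (by positivity); linarith
      _ = 2 * r * (p / 2 ^ r) + ((T * w) * (2 * (x * Y) ^ (T - 1)) / Y ^ T) / 2 ^ r := by
          rw [hoR, h2n]; field_simp
      _ ≤ 2 * r * (p / 2 ^ r) + (2 * p * M) / 2 ^ r := by
          have := div_le_div_of_nonneg_right hIT (show (0 : ℝ) ≤ 2 ^ r by positivity)
          linarith
      _ = 2 * (p / 2 ^ r) * (r + M) := by ring
      _ ≤ 2 * (p / 2 ^ r) * (r + Real.logb 2 (1 / p) + M) := by
          apply mul_le_mul_of_nonneg_left _ (by positivity); linarith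
  · intro g J hg hd
    rw [hμ, hlog]
    have hd' : (dis F g : ℝ) ≤ ε * o := by
      rw [hones] at hd
      have h2npos : (0 : ℝ) < 2 ^ n := by positivity
      rw [div_le_iff₀ h2npos] at hd
      calc (dis F g : ℝ) ≤ ε * (o / 2 ^ n) * 2 ^ n := hd
        _ = ε * o := by field_simp
    have h1 := g3 g J hg hd'
    refine lt_of_lt_of_le ?_ h1
    have h2 : C * (r + Real.logb 2 (1 / p)) * 2 ^ (c * (M / ε)) ≤
        C * (r + Real.logb 2 (2 / q)) * (2 : ℝ) ^ (c * (κ * w / ε)) := by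
      apply mul_le_mul_of_nonneg_right _ (by positivity)
      apply mul_le_mul_of_nonneg_left _ hC.le
      linarith
    have h3 : (1 - ε) * (q / 2) * Y ≤ (1 - ε) * p * Y := by
      apply mul_le_mul_of_nonneg_right _ hYpos.le
      apply mul_le_mul_of_nonneg_left hpq; linarith
    linarith

end Pool.Agent.H889R3.Tribes
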